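import Mathlib

/-!
MP_1bf996_co (almost k-covers of the cube), bounded degree: the peeling lemma for columns of polynomials.
-/

set_option autoImplicit false

open Finset Polynomial

namespace Pool.Agent.H58BD

/-- the product of the powers of the linear factors at the integers `-T, ..., T` -/
noncomputable def DD (T : ℕ) (Ω : ℤ → ℕ) : ℝ[X] := ∏ τ ∈ Finset.Icc (-(T : ℤ)) T, (X - C (τ : ℝ)) ^ Ω τ

theorem DD_monic (T : ℕ) (Ω : ℤ → ℕ) : (DD T Ω).Monic :=
  Polynomial.monic_prod_of_monic _ _ fun _ _ => (Polynomial.monic_X_sub_C _).pow _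

theorem DD_natDegree (T : ℕ) (Ω : ℤ → ℕ) : (DD T Ω).natDegree = ∑ τ ∈ Finset.Icc (-(T : ℤ)) T, Ω τ := by
  unfold DD
  rw [Polynomial.natDegree_prod_of_monic _ _ fun _ _ => (Polynomial.monic_X_sub_C _).pow _]
  refine Finset.sum_congr rfl fun τ _ => ?_
  rw [Polynomial.natDegree_pow, Polynomial.natDegree_X_sub_C, mul_one]

theorem DD_degree (T : ℕ) (Ω : ℤ → ℕ) :
    (DD T Ω).degree = ((∑ τ ∈ Finset.Icc (-(T : ℤ)) T, Ω τ : ℕ) : WithBot ℕ) := by
  rw [Polynomial.degree_eq_natDegree (DD_monic T Ω).ne_zero, DD_natDegree]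

theorem DD_dvd {T : ℕ} {Ω : ℤ → ℕ} {p : ℝ[X]}
    (h : ∀ τ ∈ Finset.Icc (-(T : ℤ)) T, (X - C (τ : ℝ)) ^ Ω τ ∣ p) : DD T Ω ∣ p := by
  refine Finset.prod_dvd_of_coprime ?_ h
  intro s _ t _ hst
  refine IsCoprime.pow ?_
  refine Polynomial.isCoprime_X_sub_C_of_isUnit_sub ?_
  rw [isUnit_iff_ne_zero, sub_ne_zero]
  exact_mod_cast hst

theorem DD_dvd_DD {T : ℕ} {Ω Ω' : ℤ → ℕ} (h : ∀ τ, Ω τ ≤ Ω' τ) : DD T Ω ∣ DD T Ω' :=
  Finset.prod_dvd_prod_of_dvd _ _ fun τ _ => pow_dvd_pow _ (h τ)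

theorem DD_eval {T : ℕ} {Ω : ℤ → ℕ} (h : 1 ≤ Ω 0) : (DD T Ω).eval 0 = 0 := by
  unfold DD
  rw [Polynomial.eval_prod]
  refine Finset.prod_eq_zero (i := 0) (Finset.mem_Icc.2 ⟨by simp, by simp⟩) ?_
  rw [Polynomial.eval_pow, Polynomial.eval_sub, Polynomial.eval_X, Polynomial.eval_C, Int.cast_zero, sub_zero,
    zero_pow (by omega)]

theorem peel (m E q T : ℕ) (Ω : ℕ → ℤ → ℕ) (ΩB : ℤ → ℕ) (F : ℕ → ℝ[X])
    (hdeg : ∀ J : Finset ℕ, (∑ j ∈ range (m + 1), C (∏ j' ∈ J, ((j' : ℝ) - j)) * F j).degree <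
      ((q + J.card : ℕ) : WithBot ℕ))
    (hΩ : ∀ j ≤ m, ∀ τ ∈ Finset.Icc (-(T : ℤ)) T, (X - C (τ : ℝ)) ^ Ω j τ ∣ F j)
    (hle : ∀ j ≤ m, ∀ τ, Ω j τ ≤ ΩB τ)
    (hint : ∀ j, E ≤ j → j + E ≤ m → ∀ τ, Ω j τ = ΩB τ)
    (hB0 : 1 ≤ ΩB 0)
    (hq0 : q ≤ ∑ τ ∈ Finset.Icc (-(T : ℤ)) T, Ω 0 τ)
    (hbd : ∀ j, 1 ≤ j → j ≤ m → (j < E ∨ m < j + E) →
      q + 2 * min j (m - j) + 1 ≤ ∑ τ ∈ Finset.Icc (-(T : ℤ)) T, Ω j τ) : (F 0).eval 0 = 0 := by
  classical
  set B := DD T ΩB with hB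
  have hBm : B.Monic := DD_monic T ΩB
  set G : ℕ → ℝ[X] := fun j => F j %ₘ B with hG
  have hdivG : ∀ j ≤ m, DD T (Ω j) ∣ G j := by
    intro j hj
    have h1 : DD T (Ω j) ∣ F j := DD_dvd (hΩ j hj)
    have h2 : DD T (Ω j) ∣ B := DD_dvd_DD (hle j hj)
    have h3 : G j = F j - B * (F j /ₘ B) := by
      rw [hG]
      exact Polynomial.modByMonic_eq_sub_mul_div (F j) B
    rw [h3]
    exact dvd_sub h1 (h2.mul_right _)
  have hGint : ∀ j, E ≤ j → j + E ≤ m → G j = 0 := by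
    intro j h1 h2
    refine (Polynomial.modByMonic_eq_zero_iff_dvd hBm).2 ?_
    have h3 : DD T (Ω j) ∣ F j := DD_dvd (hΩ j (by omega))
    have h4 : Ω j = ΩB := funext (hint j h1 h2)
    rwa [h4] at h3
  have hGdeg : ∀ J : Finset ℕ, (∑ j ∈ range (m + 1), C (∏ j' ∈ J, ((j' : ℝ) - j)) * G j).degree <
      ((q + J.card : ℕ) : WithBot ℕ) := by
    intro J
    have h1 : ∑ j ∈ range (m + 1), C (∏ j' ∈ J, ((j' : ℝ) - j)) * G j =
        (∑ j ∈ range (m + 1), C (∏ j' ∈ J, ((j' : ℝ) - j)) * F j) %ₘ B := by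
      have h2 : ∀ p : ℝ[X], p %ₘ B = Polynomial.modByMonicHom B p := fun p => rfl
      rw [h2, map_sum]
      refine Finset.sum_congr rfl fun j _ => ?_
      rw [← Polynomial.smul_eq_C_mul, ← Polynomial.smul_eq_C_mul, map_smul]
      rfl
    rw [h1]
    exact (Polynomial.degree_modByMonic_le_left).trans_lt (hdeg J)
  -- the induction
  have key : ∀ n : ℕ, ∀ J₀ : Finset ℕ, J₀.card ≤ n → 0 ∈ J₀ → J₀ ⊆ range (m + 1) →
      (∀ j ∈ J₀, j < E ∨ m < j + E) → (∀ j ∈ range (m + 1), j ∉ J₀ → G j = 0) → G 0 = 0 := by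
    intro n
    induction n with
    | zero =>
      intro J₀ hc h0 _ _ _
      rw [Nat.le_zero, Finset.card_eq_zero] at hc
      rw [hc] at h0
      exact absurd h0 (Finset.notMem_empty 0)
    | succ n ih =>
      intro J₀ hc h0 hsub hE hz
      by_cases hne : (J₀.erase 0).Nonempty
      · obtain ⟨j₀, hj₀, hmax⟩ := Finset.exists_max_image (J₀.erase 0) (fun j => min j (m - j)) hne
        rw [Finset.mem_erase] at hj₀
        obtain ⟨hj₀0, hj₀J⟩ := hj₀
        have hj₀m : j₀ ≤ m := Nat.lt_succ_iff.1 (Finset.mem_range.1 (hsub hj₀J))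
        set e := min j₀ (m - j₀) with he
        have hcard : J₀.card ≤ 2 * e + 2 := by
          have h1 : J₀ ⊆ range (e + 1) ∪ (range (e + 1)).image fun i => m - i := by
            intro j hj
            have hjm : j ≤ m := Nat.lt_succ_iff.1 (Finset.mem_range.1 (hsub hj))
            have h2 : min j (m - j) ≤ e := by
              by_cases h : j = 0
              · rw [h]
                simp
              · exact hmax j (Finset.mem_erase.2 ⟨h, hj⟩)
            rcases min_le_iff.1 h2 with h3 | h3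
            · exact Finset.mem_union_left _ (Finset.mem_range.2 (by omega))
            · refine Finset.mem_union_right _ (Finset.mem_image.2 ⟨m - j, Finset.mem_range.2 (by omega), ?_⟩)
              omega
          refine (Finset.card_le_card h1).trans ((Finset.card_union_le _ _).trans ?_)
          have h2 : ((range (e + 1)).image fun i => m - i).card ≤ e + 1 :=
            Finset.card_image_le.trans (Finset.card_range _).le
          rw [Finset.card_range]
          omega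
        have hsum : ∑ j ∈ range (m + 1), C (∏ j' ∈ J₀.erase j₀, ((j' : ℝ) - j)) * G j =
            C (∏ j' ∈ J₀.erase j₀, ((j' : ℝ) - j₀)) * G j₀ := by
          refine Finset.sum_eq_single_of_mem j₀ (hsub hj₀J) fun j hj hjj => ?_
          by_cases hjJ : j ∈ J₀
          · rw [Finset.prod_eq_zero (Finset.mem_erase.2 ⟨hjj, hjJ⟩) (sub_self _), C_0, zero_mul]
          · rw [hz j hj hjJ, mul_zero]
        have hpr : ∏ j' ∈ J₀.erase j₀, ((j' : ℝ) - j₀) ≠ 0 := by
          rw [Finset.prod_ne_zero_iff]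
          intro j' hj'
          rw [sub_ne_zero]
          exact_mod_cast (Finset.mem_erase.1 hj').1
        have hd := hGdeg (J₀.erase j₀)
        rw [hsum, Polynomial.degree_C_mul hpr, Finset.card_erase_of_mem hj₀J] at hd
        have hz0 : G j₀ = 0 := by
          refine Polynomial.eq_zero_of_dvd_of_degree_lt (hdivG j₀ hj₀m) ?_
          rw [DD_degree]
          refine hd.trans_le ?_
          have h1 := hbd j₀ (by omega) hj₀m (hE j₀ hj₀J)
          exact_mod_cast (show q + (J₀.card - 1) ≤ ∑ τ ∈ Finset.Icc (-(T : ℤ)) T, Ω j₀ τ by omega)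
        refine ih (J₀.erase j₀) (by rw [Finset.card_erase_of_mem hj₀J]; omega)
          (Finset.mem_erase.2 ⟨fun h => hj₀0 h.symm, h0⟩) ((Finset.erase_subset _ _).trans hsub)
          (fun j hj => hE j (Finset.mem_erase.1 hj).2) (fun j hj hjJ => ?_)
        by_cases h : j = j₀
        · rw [h]
          exact hz0
        · exact hz j hj fun h' => hjJ (Finset.mem_erase.2 ⟨h, h'⟩)
      · rw [Finset.not_nonempty_iff_eq_empty] at hne
        have hsum : ∑ j ∈ range (m + 1), C (∏ j' ∈ (∅ : Finset ℕ), ((j' : ℝ) - j)) * G j = G 0 := by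
          have h1 : ∑ j ∈ range (m + 1), C (∏ j' ∈ (∅ : Finset ℕ), ((j' : ℝ) - j)) * G j =
              C (∏ j' ∈ (∅ : Finset ℕ), ((j' : ℝ) - (0 : ℕ))) * G 0 := by
            refine Finset.sum_eq_single_of_mem 0 (hsub h0) fun j hj hj0 => ?_
            rw [hz j hj fun h => ?_, mul_zero]
            have : j ∈ J₀.erase 0 := Finset.mem_erase.2 ⟨hj0, h⟩
            rw [hne] at this
            exact Finset.notMem_empty j this
          rw [h1, Finset.prod_empty, C_1, one_mul]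
        have hd := hGdeg ∅
        rw [hsum, Finset.card_empty, add_zero] at hd
        refine Polynomial.eq_zero_of_dvd_of_degree_lt (hdivG 0 (Nat.zero_le _)) ?_
        rw [DD_degree]
        exact hd.trans_le (by exact_mod_cast hq0)
  have hG0 : G 0 = 0 := by
    by_cases hE0 : E = 0
    · -- no boundary columns: all columns vanish
      exact hGint 0 (by omega) (by omega)
    refine key _ ((range (m + 1)).filter fun j => j < E ∨ m < j + E) le_rfl ?_ (Finset.filter_subset _ _)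
      (fun j hj => (Finset.mem_filter.1 hj).2) (fun j hj hjJ => ?_)
    · exact Finset.mem_filter.2 ⟨Finset.mem_range.2 (Nat.succ_pos _), Or.inl (by omega)⟩
    · have h1 : ¬ (j < E ∨ m < j + E) := fun h => hjJ (Finset.mem_filter.2 ⟨hj, h⟩)
      push Not at h1
      exact hGint j h1.1 h1.2
  have h1 : B ∣ F 0 := (Polynomial.modByMonic_eq_zero_iff_dvd hBm).1 hG0
  obtain ⟨p, hp⟩ := h1
  rw [hp, Polynomial.eval_mul, DD_eval hB0, zero_mul]

end Pool.Agent.H58BD
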