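import Mathlib

/-!
MP_1bf996_co (almost k-covers of the cube), bounded degree: moving a vertex along the coordinates in `X`.
`Sc`: members which are constant on `X`; `Sd`: members which are injective on `X`; each coordinate in `X` occurs
in at most `d` other members.
-/

set_option autoImplicit false

open Finset

namespace Pool.Agent.H58BD

structure Dat (d : ℕ) (α ι : Type) [DecidableEq α] [Fintype ι] [DecidableEq ι] where
  /-- coefficients -/
  b : ι → α → ℝ
  X : Finset α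
  Sc : Finset ι
  Sd : Finset ι
  lam : ι → ℝ
  hc : ∀ s ∈ Sc, ∀ i ∈ X, b s i = lam s
  hinj : ∀ s ∈ Sd, Set.InjOn (b s) X
  hd : ∀ i ∈ X, (univ.filter fun g => (g ∉ Sc ∧ g ∉ Sd) ∧ b g i ≠ 0).card ≤ d

namespace Dat

variable {d : ℕ} {α ι : Type} [DecidableEq α] [Fintype ι] [DecidableEq ι] (P : Dat d α ι)

/-- the value of a member at a vertex -/
def sm (g : ι) (u : Finset α) : ℝ := ∑ v ∈ u, P.b g v

theorem sm_mod (g : ι) {u V0 V1 : Finset α} (h0 : V0 ⊆ u) (h1 : Disjoint V1 u) :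
    P.sm g ((u \ V0) ∪ V1) = P.sm g u - P.sm g V0 + P.sm g V1 := by
  unfold sm
  rw [Finset.sum_union (Finset.disjoint_of_subset_left Finset.sdiff_subset h1.symm)]
  have h2 := Finset.sum_sdiff (f := P.b g) h0
  linarith

theorem sm_const {s : ι} (hs : s ∈ P.Sc) {V : Finset α} (hV : V ⊆ P.X) : P.sm s V = V.card * P.lam s := by
  unfold sm
  rw [Finset.sum_congr rfl fun i hi => P.hc s hs i (hV hi), Finset.sum_const, nsmul_eq_mul]

theorem pick {C : Finset α} (hC : C ⊆ P.X) (hcard : P.Sd.card < C.card) (β : ι → ℝ) {ε : ℝ} (hε : ε ≠ 0) :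
    ∃ i ∈ C, ∀ s ∈ P.Sd, β s + ε * P.b s i ≠ 1 := by
  by_contra hcon
  push Not at hcon
  have hne : P.Sd.Nonempty := by
    obtain ⟨i, hi⟩ := Finset.card_pos.1 (show 0 < C.card by omega)
    obtain ⟨s, hs, -⟩ := hcon i hi
    exact ⟨s, hs⟩
  have : Nonempty ι := ⟨hne.choose⟩
  choose! f hf1 hf2 using hcon
  have h1 : C.card ≤ P.Sd.card := by
    refine Finset.card_le_card_of_injOn f (fun i hi => hf1 i hi) ?_
    intro i hi j hj hij
    have e1 := hf2 i hi
    have e2 := hf2 j hj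
    rw [← hij] at e2
    have e3 : ε * P.b (f i) i = ε * P.b (f i) j := by linarith
    exact P.hinj (f i) (hf1 i hi) (hC hi) (hC hj) (mul_left_cancel₀ hε e3)
  omega

/-- the other members that contain the new vertex -/
theorem hits {u V0 V1 : Finset α} (h0 : V0 ⊆ P.X ∩ u) (h1 : V1 ⊆ P.X \ u)
    (hu : ∀ g, g ∉ P.Sc → g ∉ P.Sd → P.sm g u ≠ 1)
    (hav : ∀ s ∈ P.Sd, P.sm s u - P.sm s V0 + P.sm s V1 ≠ 1) :
    (univ.filter fun g => g ∉ P.Sc ∧ P.sm g ((u \ V0) ∪ V1) = 1).card ≤ (V0.card + V1.card) * d := by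
  have hV0u : V0 ⊆ u := h0.trans Finset.inter_subset_right
  have hV1u : Disjoint V1 u := Finset.disjoint_of_subset_left h1 Finset.sdiff_disjoint
  have hsub : (univ.filter fun g => g ∉ P.Sc ∧ P.sm g ((u \ V0) ∪ V1) = 1) ⊆
      (V0 ∪ V1).biUnion fun i => univ.filter fun g => (g ∉ P.Sc ∧ g ∉ P.Sd) ∧ P.b g i ≠ 0 := by
    intro g hg
    rw [Finset.mem_filter] at hg
    obtain ⟨-, hgc, hg1⟩ := hg
    rw [P.sm_mod g hV0u hV1u] at hg1
    have hgd : g ∉ P.Sd := fun h => hav g h hg1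
    rw [Finset.mem_biUnion]
    by_contra hcon
    push Not at hcon
    have hz : ∀ i ∈ V0 ∪ V1, P.b g i = 0 := by
      intro i hi
      by_contra hb
      exact hcon i hi (Finset.mem_filter.2 ⟨Finset.mem_univ _, ⟨hgc, hgd⟩, hb⟩)
    have e0 : P.sm g V0 = 0 := Finset.sum_eq_zero fun i hi => hz i (Finset.mem_union_left _ hi)
    have e1 : P.sm g V1 = 0 := Finset.sum_eq_zero fun i hi => hz i (Finset.mem_union_right _ hi)
    rw [e0, e1, sub_zero, add_zero] at hg1
    exact hu g hgc hgd hg1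
  refine (Finset.card_le_card hsub).trans ?_
  refine (Finset.card_biUnion_le_card_mul _ _ d fun i hi => P.hd i ?_).trans
    (Nat.mul_le_mul_right d (Finset.card_union_le _ _))
  rcases Finset.mem_union.1 hi with h | h
  · exact (Finset.mem_inter.1 (h0 h)).1
  · exact (Finset.mem_sdiff.1 (h1 h)).1

theorem card_split (u : Finset α) : (P.X ∩ u).card + (P.X \ u).card = P.X.card := by
  rw [Finset.inter_comm, add_comm]
  exact Finset.card_sdiff_add_card_inter P.X u ▸ by rw [Finset.inter_comm]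

theorem up {u : Finset α} {t : ℕ} (ht : 1 ≤ t) (hu : t + 1 ≤ (P.X \ u).card)
    (hm : t + 2 * P.Sd.card + 2 ≤ P.X.card) :
    ∃ V0 V1, V0 ⊆ P.X ∩ u ∧ V1 ⊆ P.X \ u ∧ V1.card = V0.card + t ∧ V0.card ≤ 1 ∧
      ∀ s ∈ P.Sd, P.sm s u - P.sm s V0 + P.sm s V1 ≠ 1 := by
  by_cases hA : t + P.Sd.card ≤ (P.X \ u).card
  · obtain ⟨W, hW, hWc⟩ := Finset.exists_subset_card_eq (show t - 1 ≤ (P.X \ u).card by omega)
    obtain ⟨i, hi, hi2⟩ := P.pick (C := (P.X \ u) \ W) (Finset.sdiff_subset.trans Finset.sdiff_subset) (by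
      have := Finset.le_card_sdiff W (P.X \ u)
      omega) (fun s => P.sm s u + P.sm s W) (ε := 1) one_ne_zero
    rw [Finset.mem_sdiff] at hi
    refine ⟨∅, insert i W, Finset.empty_subset _, Finset.insert_subset hi.1 hW, ?_, by simp, fun s hs => ?_⟩
    · rw [Finset.card_insert_of_notMem hi.2, hWc, Finset.card_empty]
      omega
    · have h1 := hi2 s hs
      have h2 : P.sm s (insert i W) = P.b s i + P.sm s W := Finset.sum_insert hi.2
      have h3 : P.sm s ∅ = 0 := Finset.sum_empty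
      rw [h2, h3]
      intro h4
      exact h1 (by linarith)
  · obtain ⟨V1, hV1, hV1c⟩ := Finset.exists_subset_card_eq hu
    have hsp := P.card_split u
    obtain ⟨i, hi, hi2⟩ := P.pick (C := P.X ∩ u) Finset.inter_subset_left (by omega)
      (fun s => P.sm s u + P.sm s V1) (ε := -1) (by norm_num)
    refine ⟨{i}, V1, Finset.singleton_subset_iff.2 hi, hV1, ?_, by simp, fun s hs => ?_⟩
    · rw [Finset.card_singleton, hV1c]
      omega
    · have h1 := hi2 s hs
      have h2 : P.sm s {i} = P.b s i := Finset.sum_singleton _ _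
      rw [h2]
      intro h4
      exact h1 (by linarith)

theorem down {u : Finset α} {t : ℕ} (ht : 1 ≤ t) (hu : t + 1 ≤ (P.X ∩ u).card)
    (hm : t + 2 * P.Sd.card + 2 ≤ P.X.card) :
    ∃ V0 V1, V0 ⊆ P.X ∩ u ∧ V1 ⊆ P.X \ u ∧ V0.card = V1.card + t ∧ V1.card ≤ 1 ∧
      ((u \ V0) ∪ V1).Nonempty ∧ ∀ s ∈ P.Sd, P.sm s u - P.sm s V0 + P.sm s V1 ≠ 1 := by
  by_cases hA : t + P.Sd.card ≤ (P.X ∩ u).card
  · obtain ⟨W, hW, hWc⟩ := Finset.exists_subset_card_eq (show t - 1 ≤ (P.X ∩ u).card by omega)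
    obtain ⟨i, hi, hi2⟩ := P.pick (C := (P.X ∩ u) \ W) (Finset.sdiff_subset.trans Finset.inter_subset_left) (by
      have := Finset.le_card_sdiff W (P.X ∩ u)
      omega) (fun s => P.sm s u - P.sm s W) (ε := -1) (by norm_num)
    rw [Finset.mem_sdiff] at hi
    have hc : (insert i W).card = t := by
      rw [Finset.card_insert_of_notMem hi.2, hWc]
      omega
    refine ⟨insert i W, ∅, Finset.insert_subset hi.1 hW, Finset.empty_subset _, ?_, by simp, ?_, fun s hs => ?_⟩
    · rw [hc, Finset.card_empty, zero_add]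
    · rw [Finset.union_empty]
      refine Finset.card_pos.1 ?_
      have h1 := Finset.le_card_sdiff (insert i W) u
      have h2 : (P.X ∩ u).card ≤ u.card := Finset.card_le_card Finset.inter_subset_right
      omega
    · have h1 := hi2 s hs
      have h2 : P.sm s (insert i W) = P.b s i + P.sm s W := Finset.sum_insert hi.2
      have h3 : P.sm s ∅ = 0 := Finset.sum_empty
      rw [h2, h3]
      intro h4
      exact h1 (by linarith)
  · obtain ⟨V0, hV0, hV0c⟩ := Finset.exists_subset_card_eq hu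
    have hsp := P.card_split u
    obtain ⟨i, hi, hi2⟩ := P.pick (C := P.X \ u) Finset.sdiff_subset (by omega)
      (fun s => P.sm s u - P.sm s V0) (ε := 1) one_ne_zero
    refine ⟨V0, {i}, hV0, Finset.singleton_subset_iff.2 hi, ?_, by simp, ?_, fun s hs => ?_⟩
    · rw [Finset.card_singleton, hV0c]
      omega
    · exact ⟨i, Finset.mem_union_right _ (Finset.mem_singleton_self i)⟩
    · have h1 := hi2 s hs
      have h2 : P.sm s {i} = P.b s i := Finset.sum_singleton _ _
      rw [h2]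
      intro h4
      exact h1 (by linarith)

/-- Exchange of two coordinates, such that the new vertex lies on no member in `Sd`. -/
theorem swap {u : Finset α} (h0 : 1 ≤ (P.X ∩ u).card) (h1 : 1 ≤ (P.X \ u).card) (hm : 2 * P.Sd.card + 2 ≤ P.X.card)
    (hu : ∀ g, g ∉ P.Sc → g ∉ P.Sd → P.sm g u ≠ 1) :
    ∃ u' : Finset α, u'.Nonempty ∧ (∀ s ∈ P.Sc, P.sm s u' = P.sm s u) ∧
      (univ.filter fun g => g ∉ P.Sc ∧ P.sm g u' = 1).card ≤ 2 * d := by
  have hsp := P.card_split u
  have key : ∃ i ∈ P.X ∩ u, ∃ i' ∈ P.X \ u, ∀ s ∈ P.Sd, P.sm s u - P.sm s {i} + P.sm s {i'} ≠ 1 := by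
    by_cases hA : P.Sd.card < (P.X \ u).card
    · obtain ⟨i, hi⟩ := Finset.card_pos.1 (show 0 < (P.X ∩ u).card by omega)
      obtain ⟨i', hi', hi2⟩ := P.pick (C := P.X \ u) Finset.sdiff_subset hA (fun s => P.sm s u - P.sm s {i})
        (ε := 1) one_ne_zero
      refine ⟨i, hi, i', hi', fun s hs h => hi2 s hs ?_⟩
      have h2 : P.sm s {i'} = P.b s i' := Finset.sum_singleton _ _
      rw [one_mul, ← h2]
      exact h
    · obtain ⟨i', hi'⟩ := Finset.card_pos.1 (show 0 < (P.X \ u).card by omega)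
      obtain ⟨i, hi, hi2⟩ := P.pick (C := P.X ∩ u) Finset.inter_subset_left (by omega)
        (fun s => P.sm s u + P.sm s {i'}) (ε := -1) (by norm_num)
      refine ⟨i, hi, i', hi', fun s hs h => hi2 s hs ?_⟩
      have h2 : P.sm s {i} = P.b s i := Finset.sum_singleton _ _
      rw [← h2]
      linarith
  obtain ⟨i, hi, i', hi', hav⟩ := key
  have hV0 : ({i} : Finset α) ⊆ P.X ∩ u := Finset.singleton_subset_iff.2 hi
  have hV1 : ({i'} : Finset α) ⊆ P.X \ u := Finset.singleton_subset_iff.2 hi'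
  have hV0u : ({i} : Finset α) ⊆ u := hV0.trans Finset.inter_subset_right
  have hV1u : Disjoint ({i'} : Finset α) u := Finset.disjoint_of_subset_left hV1 Finset.sdiff_disjoint
  refine ⟨(u \ {i}) ∪ {i'}, ⟨i', Finset.mem_union_right _ (Finset.mem_singleton_self i')⟩, fun s hs => ?_,
    (P.hits hV0 hV1 hu hav).trans ?_⟩
  · rw [P.sm_mod s hV0u hV1u, P.sm_const hs (hV0.trans Finset.inter_subset_left),
      P.sm_const hs (hV1.trans Finset.sdiff_subset), Finset.card_singleton, Finset.card_singleton]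
    ring
  · rw [Finset.card_singleton, Finset.card_singleton]

/-- A vertex which lies only on members in `Sc ∪ Sd` can be moved by `τ` steps: the new vertex lies on at most
`d (|τ| + 2)` members outside `Sc`. -/
theorem shift {u : Finset α} (hu : ∀ g, g ∉ P.Sc → g ∉ P.Sd → P.sm g u ≠ 1) {τ : ℤ} (hτ : τ ≠ 0)
    (hpos : 0 < τ → τ.natAbs + 1 ≤ (P.X \ u).card) (hneg : τ < 0 → τ.natAbs + 1 ≤ (P.X ∩ u).card)
    (hm : τ.natAbs + 2 * P.Sd.card + 2 ≤ P.X.card) :
    ∃ u' : Finset α, u'.Nonempty ∧ (∀ s ∈ P.Sc, P.sm s u' = P.sm s u + τ * P.lam s) ∧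
      (univ.filter fun g => g ∉ P.Sc ∧ P.sm g u' = 1).card ≤ d * (τ.natAbs + 2) := by
  have hab : 1 ≤ τ.natAbs := by omega
  rcases lt_or_gt_of_ne hτ with h | h
  · obtain ⟨V0, V1, h0, h1, hc, hc1, hne, hav⟩ := P.down hab (hneg h) hm
    have hV0u : V0 ⊆ u := h0.trans Finset.inter_subset_right
    have hV1u : Disjoint V1 u := Finset.disjoint_of_subset_left h1 Finset.sdiff_disjoint
    refine ⟨(u \ V0) ∪ V1, hne, fun s hs => ?_, (P.hits h0 h1 hu hav).trans ?_⟩
    · rw [P.sm_mod s hV0u hV1u, P.sm_const hs (h0.trans Finset.inter_subset_left),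
        P.sm_const hs (h1.trans Finset.sdiff_subset)]
      have h2 : (V0.card : ℝ) = V1.card - τ := by
        have h3 : (V0.card : ℤ) = V1.card - τ := by omega
        exact_mod_cast h3
      rw [h2]
      ring
    · rw [mul_comm]
      exact Nat.mul_le_mul_left d (by omega)
  · obtain ⟨V0, V1, h0, h1, hc, hc1, hav⟩ := P.up hab (hpos h) hm
    have hV0u : V0 ⊆ u := h0.trans Finset.inter_subset_right
    have hV1u : Disjoint V1 u := Finset.disjoint_of_subset_left h1 Finset.sdiff_disjoint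
    refine ⟨(u \ V0) ∪ V1, ?_, fun s hs => ?_, (P.hits h0 h1 hu hav).trans ?_⟩
    · obtain ⟨i, hi⟩ := Finset.card_pos.1 (show 0 < V1.card by omega)
      exact ⟨i, Finset.mem_union_right _ hi⟩
    · rw [P.sm_mod s hV0u hV1u, P.sm_const hs (h0.trans Finset.inter_subset_left),
        P.sm_const hs (h1.trans Finset.sdiff_subset)]
      have h2 : (V1.card : ℝ) = V0.card + τ := by
        have h3 : (V1.card : ℤ) = V0.card + τ := by omega
        exact_mod_cast h3
      rw [h2]
      ring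
    · rw [mul_comm]
      exact Nat.mul_le_mul_left d (by omega)

end Dat

end Pool.Agent.H58BD
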