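import Mathlib
import Pool.Agent.Helper66.AC.Poly
import Pool.Agent.Helper58.BD.Peel
import Pool.Agent.Helper58.BD.Shift

/-!
MP_1bf996_co (almost k-covers of the cube), bounded degree: the columns and their zeros.
-/

set_option autoImplicit false

open Finset Polynomial

namespace Pool.Agent.H58BD

namespace Dat

variable {d n : ℕ} {ι : Type} [Fintype ι] [DecidableEq ι] (P : Dat d (Fin n) ι)

/-- the slope of a member -/
noncomputable def mu (g : ι) : ℝ := if g ∈ P.Sc then P.lam g else 0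

/-- the term of a vertex; the members in `Δ` are dropped -/
noncomputable def G (Δ : Finset ι) (u : Finset (Fin n)) : ℝ[X] :=
  ∏ g ∈ Δᶜ, (1 - C (P.mu g) * Polynomial.X - C (∑ i ∈ u, P.b g i))

/-- the columns -/
noncomputable def F (Δ : Finset ι) (j : ℕ) : ℝ[X] :=
  ∑ u ∈ (univ : Finset (Fin n)).powerset.filter (fun u => (P.X ∩ u).card = j), (-1 : ℝ[X]) ^ u.card * P.G Δ u

theorem prod_dvd {w : ℕ} {p : ℝ[X]} {f : ι → ℝ[X]} {V : Finset ι} (W : Finset ι) (hWV : W ⊆ V) (hW : w ≤ W.card)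
    (h : ∀ g ∈ W, p ∣ f g) : p ^ w ∣ ∏ g ∈ V, f g := by
  calc p ^ w ∣ p ^ W.card := pow_dvd_pow _ hW
    _ = ∏ g ∈ W, p := by rw [Finset.prod_const]
    _ ∣ ∏ g ∈ W, f g := Finset.prod_dvd_prod_of_dvd _ _ h
    _ ∣ ∏ g ∈ V, f g := Finset.prod_dvd_prod_of_subset _ _ _ hWV

/-- the factor of a member in `Sc` which contains the shifted vertex -/
theorem factor_dvd {g : ι} (hg : g ∈ P.Sc) {u : Finset (Fin n)} {τ : ℤ} (h : P.sm g u + τ * P.lam g = 1) :
    (Polynomial.X - C (τ : ℝ)) ∣ (1 - C (P.mu g) * Polynomial.X - C (∑ i ∈ u, P.b g i) : ℝ[X]) := by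
  refine ⟨-C (P.lam g), ?_⟩
  have h1 : P.mu g = P.lam g := if_pos hg
  have h2 : ∑ i ∈ u, P.b g i = 1 - τ * P.lam g := by
    unfold sm at h
    linarith
  rw [h1, h2, C_sub, C_mul, C_1]
  ring

theorem G_zero {Δ : Finset ι} {u : Finset (Fin n)} {g : ι} (hg : g ∉ P.Sc) (hgΔ : g ∉ Δ) (h : P.sm g u = 1) :
    P.G Δ u = 0 := by
  refine Finset.prod_eq_zero (Finset.mem_compl.2 hgΔ) ?_
  have h1 : P.mu g = 0 := if_neg hg
  have h2 : ∑ i ∈ u, P.b g i = 1 := h
  rw [h1, h2, C_0, C_1]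
  ring

/-- divisibility from a covered vertex `u'` -/
theorem G_dvd {Δ : Finset ι} (hΔ : Disjoint Δ P.Sc) {k c : ℕ} {u u' : Finset (Fin n)} {τ : ℤ}
    (hk : k ≤ (univ.filter fun g => P.sm g u' = 1).card)
    (h1 : ∀ s ∈ P.Sc, P.sm s u' = P.sm s u + τ * P.lam s)
    (h2 : (univ.filter fun g => g ∉ P.Sc ∧ P.sm g u' = 1).card ≤ c) : (Polynomial.X - C (τ : ℝ)) ^ (k - c) ∣ P.G Δ u := by
  have h3 : (univ.filter fun g => P.sm g u' = 1) =
      (univ.filter fun g => g ∈ P.Sc ∧ P.sm g u' = 1) ∪ (univ.filter fun g => g ∉ P.Sc ∧ P.sm g u' = 1) := by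
    ext g
    simp only [Finset.mem_filter, Finset.mem_univ, true_and, Finset.mem_union]
    tauto
  have h4 := Finset.card_union_le (univ.filter fun g => g ∈ P.Sc ∧ P.sm g u' = 1)
    (univ.filter fun g => g ∉ P.Sc ∧ P.sm g u' = 1)
  rw [← h3] at h4
  refine prod_dvd (univ.filter fun g => g ∈ P.Sc ∧ P.sm g u' = 1) (fun g hg => ?_) (by omega) fun g hg => ?_
  · exact Finset.mem_compl.2 fun h => Finset.disjoint_left.1 hΔ h (Finset.mem_filter.1 hg).2.1
  obtain ⟨-, hgc, hg1⟩ := Finset.mem_filter.1 hg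
  refine P.factor_dvd hgc ?_
  rw [← h1 g hgc, hg1]

/-- the order at the node `t` if the room is `r` -/
def ord (k d a r t : ℕ) : ℕ := if t + a ≤ r then k - d * t else if t + 1 ≤ r then k - d * (t + 2) else 0

theorem G_dvd_pos {Δ : Finset ι} (hΔ : Disjoint Δ P.Sc) (hΔd : Δ ⊆ P.Sd) {k a : ℕ} (ha : P.Sd.card ≤ a) (hcov : ∀ u : Finset (Fin n), u.Nonempty → k ≤ (univ.filter fun g => P.sm g u = 1).card)
    (u : Finset (Fin n)) {t : ℕ} (ht : 1 ≤ t) (hm : t + 2 * P.Sd.card + 2 ≤ P.X.card) :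
    (Polynomial.X - C (((t : ℤ)) : ℝ)) ^ ord k d a (P.X \ u).card t ∣ P.G Δ u := by
  by_cases hu : ∀ g, g ∉ P.Sc → g ∉ P.Sd → P.sm g u ≠ 1
  · unfold ord
    split_ifs with h1 h2
    · -- enough room
      obtain ⟨W, hW, hWc⟩ := Finset.exists_subset_card_eq (show t - 1 ≤ (P.X \ u).card by omega)
      obtain ⟨i, hi, hi2⟩ := P.pick (C := (P.X \ u) \ W) (Finset.sdiff_subset.trans Finset.sdiff_subset) (by
        have := Finset.le_card_sdiff W (P.X \ u)
        omega) (fun s => P.sm s u + P.sm s W) (ε := 1) one_ne_zero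
      rw [Finset.mem_sdiff] at hi
      have hV0 : (∅ : Finset (Fin n)) ⊆ P.X ∩ u := Finset.empty_subset _
      have hV1 : insert i W ⊆ P.X \ u := Finset.insert_subset hi.1 hW
      have hc : (insert i W).card = t := by
        rw [Finset.card_insert_of_notMem hi.2, hWc]
        omega
      have hav : ∀ s ∈ P.Sd, P.sm s u - P.sm s ∅ + P.sm s (insert i W) ≠ 1 := by
        intro s hs
        have h1 := hi2 s hs
        have h2 : P.sm s (insert i W) = P.b s i + P.sm s W := Finset.sum_insert hi.2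
        have h3 : P.sm s ∅ = 0 := Finset.sum_empty
        rw [h2, h3]
        intro h4
        exact h1 (by linarith)
      have hV1u : Disjoint (insert i W) u := Finset.disjoint_of_subset_left hV1 Finset.sdiff_disjoint
      refine P.G_dvd hΔ (u' := (u \ ∅) ∪ insert i W) (hcov _ ⟨i, Finset.mem_union_right _ (Finset.mem_insert_self _ _)⟩)
        (fun s hs => ?_) ((P.hits hV0 hV1 hu hav).trans ?_)
      · rw [P.sm_mod s (Finset.empty_subset _) hV1u, P.sm_const hs (hV1.trans Finset.sdiff_subset), hc]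
        have h3 : P.sm s ∅ = 0 := Finset.sum_empty
        rw [h3]
        push_cast
        ring
      · rw [hc, Finset.card_empty, zero_add, mul_comm]
    · obtain ⟨u', hne, hs, hh⟩ := P.shift hu (τ := (t : ℤ)) (by omega) (fun _ => by simpa using h2)
        (fun h => absurd h (by omega)) (by simpa using hm)
      have h3 := P.G_dvd hΔ (hcov u' hne) hs hh
      simpa using h3
    · rw [pow_zero]
      exact one_dvd _
  · push Not at hu
    obtain ⟨g, hg, hgd, h1⟩ := hu
    rw [P.G_zero hg (fun h => hgd (hΔd h)) h1]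
    exact dvd_zero _

theorem G_dvd_neg {Δ : Finset ι} (hΔ : Disjoint Δ P.Sc) (hΔd : Δ ⊆ P.Sd) {k a : ℕ} (ha : P.Sd.card ≤ a) (ha1 : 1 ≤ a)
    (hcov : ∀ u : Finset (Fin n), u.Nonempty → k ≤ (univ.filter fun g => P.sm g u = 1).card)
    (u : Finset (Fin n)) {t : ℕ} (ht : 1 ≤ t) (hm : t + 2 * P.Sd.card + 2 ≤ P.X.card) :
    (Polynomial.X - C (((-(t : ℤ) : ℤ)) : ℝ)) ^ ord k d a (P.X ∩ u).card t ∣ P.G Δ u := by
  by_cases hu : ∀ g, g ∉ P.Sc → g ∉ P.Sd → P.sm g u ≠ 1
  · unfold ord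
    split_ifs with h1 h2
    · -- enough room
      obtain ⟨W, hW, hWc⟩ := Finset.exists_subset_card_eq (show t - 1 ≤ (P.X ∩ u).card by omega)
      obtain ⟨i, hi, hi2⟩ := P.pick (C := (P.X ∩ u) \ W) (Finset.sdiff_subset.trans Finset.inter_subset_left) (by
        have := Finset.le_card_sdiff W (P.X ∩ u)
        omega) (fun s => P.sm s u - P.sm s W) (ε := -1) (by norm_num)
      rw [Finset.mem_sdiff] at hi
      have hV1 : (∅ : Finset (Fin n)) ⊆ P.X \ u := Finset.empty_subset _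
      have hV0 : insert i W ⊆ P.X ∩ u := Finset.insert_subset hi.1 hW
      have hc : (insert i W).card = t := by
        rw [Finset.card_insert_of_notMem hi.2, hWc]
        omega
      have hav : ∀ s ∈ P.Sd, P.sm s u - P.sm s (insert i W) + P.sm s ∅ ≠ 1 := by
        intro s hs
        have h1 := hi2 s hs
        have h2 : P.sm s (insert i W) = P.b s i + P.sm s W := Finset.sum_insert hi.2
        have h3 : P.sm s ∅ = 0 := Finset.sum_empty
        rw [h2, h3]
        intro h4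
        exact h1 (by linarith)
      have hne : ((u \ insert i W) ∪ ∅).Nonempty := by
        rw [Finset.union_empty]
        refine Finset.card_pos.1 ?_
        have h1 := Finset.le_card_sdiff (insert i W) u
        have h2 : (P.X ∩ u).card ≤ u.card := Finset.card_le_card Finset.inter_subset_right
        omega
      refine P.G_dvd hΔ (u' := (u \ insert i W) ∪ ∅) (hcov _ hne)
        (fun s hs => ?_) ((P.hits hV0 hV1 hu hav).trans ?_)
      · rw [P.sm_mod s (hV0.trans Finset.inter_subset_right) (Finset.disjoint_empty_left _),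
          P.sm_const hs (hV0.trans Finset.inter_subset_left), hc]
        have h3 : P.sm s ∅ = 0 := Finset.sum_empty
        rw [h3]
        push_cast
        ring
      · rw [hc, Finset.card_empty, add_zero, mul_comm]
    · obtain ⟨u', hne, hs, hh⟩ := P.shift hu (τ := (-(t : ℤ))) (by omega) (fun h => absurd h (by omega))
        (fun _ => by simpa using h2) (by simpa using hm)
      have h3 := P.G_dvd hΔ (hcov u' hne) hs hh
      simpa using h3
    · rw [pow_zero]
      exact one_dvd _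
  · push Not at hu
    obtain ⟨g, hg, hgd, h1⟩ := hu
    rw [P.G_zero hg (fun h => hgd (hΔd h)) h1]
    exact dvd_zero _

/-- order at zero -/
theorem G_dvd_zero {Δ : Finset ι} (hΔ : Disjoint Δ P.Sc) {k : ℕ}
    (hcov : ∀ u : Finset (Fin n), u.Nonempty → k ≤ (univ.filter fun g => P.sm g u = 1).card)
    {u : Finset (Fin n)} (hu0 : u.Nonempty) : (Polynomial.X - C (((0 : ℤ)) : ℝ)) ^ (k - Δ.card) ∣ P.G Δ u := by
  by_cases hu : ∀ g, g ∉ P.Sc → g ∉ Δ → P.sm g u ≠ 1
  · refine P.G_dvd hΔ (u := u) (u' := u) (τ := 0) (k := k) (c := Δ.card) (hcov u hu0) (fun s _ => by simp)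
      (Finset.card_le_card fun g hg => ?_)
    obtain ⟨-, h1, h2⟩ := Finset.mem_filter.1 hg
    by_contra h3
    exact hu g h1 h3 h2
  · push Not at hu
    obtain ⟨g, hg, hgΔ, h1⟩ := hu
    rw [P.G_zero hg hgΔ h1]
    exact dvd_zero _

/-- order at zero by exchange -/
theorem G_dvd_swap {Δ : Finset ι} (hΔ : Disjoint Δ P.Sc) (hΔd : Δ ⊆ P.Sd) {k : ℕ}
    (hcov : ∀ u : Finset (Fin n), u.Nonempty → k ≤ (univ.filter fun g => P.sm g u = 1).card)
    {u : Finset (Fin n)} (h0 : 1 ≤ (P.X ∩ u).card) (h1 : 1 ≤ (P.X \ u).card) (hm : 2 * P.Sd.card + 2 ≤ P.X.card) :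
    (Polynomial.X - C (((0 : ℤ)) : ℝ)) ^ (k - 2 * d) ∣ P.G Δ u := by
  by_cases hu : ∀ g, g ∉ P.Sc → g ∉ P.Sd → P.sm g u ≠ 1
  · obtain ⟨u', hne, hs, hh⟩ := P.swap h0 h1 hm hu
    exact P.G_dvd hΔ (hcov u' hne) (fun s hs' => by rw [hs s hs']; simp) hh
  · push Not at hu
    obtain ⟨g, hg, hgd, h1⟩ := hu
    rw [P.G_zero hg (fun h => hgd (hΔd h)) h1]
    exact dvd_zero _

theorem F_dvd {Δ : Finset ι} {p : ℝ[X]} {j : ℕ}
    (h : ∀ u : Finset (Fin n), (P.X ∩ u).card = j → p ∣ P.G Δ u) : p ∣ P.F Δ j := by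
  refine Finset.dvd_sum fun u hu => ?_
  exact (h u (Finset.mem_filter.1 hu).2).mul_left _

/-- the degree of the moments of the columns -/
theorem F_degree {Δ : Finset ι} {q : ℕ} (hN : Fintype.card ι < n + q + Δ.card) (J : Finset ℕ) :
    (∑ j ∈ range (P.X.card + 1), C (∏ j' ∈ J, ((j' : ℝ) - j)) * P.F Δ j).degree < ((q + J.card : ℕ) : WithBot ℕ) := by
  classical
  set a : ι ⊕ ℕ → Fin n → ℝ := fun w i => match w with
    | Sum.inl g => P.b g i
    | Sum.inr _ => if i ∈ P.X then 1 else 0 with ha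
  set c : ι ⊕ ℕ → ℝ[X] := fun w => match w with
    | Sum.inl g => 1 - C (P.mu g) * Polynomial.X
    | Sum.inr j' => C (j' : ℝ) with hc
  have hdeg := Pool.Agent.Helper66.AC.altsum_degree a (Δᶜ.disjSum J) (univ : Finset (Fin n)) c
    (fun w => by
      rcases w with g | j'
      · show (1 - C (P.mu g) * Polynomial.X : ℝ[X]).natDegree ≤ 1
        compute_degree
      · show (C (j' : ℝ) : ℝ[X]).natDegree ≤ 1
        rw [natDegree_C]
        omega) (q + J.card) (by
      rw [Finset.card_disjSum, Finset.card_univ, Fintype.card_fin, Finset.card_compl]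
      have := Finset.card_le_univ Δ
      omega)
  refine lt_of_eq_of_lt (congrArg Polynomial.degree ?_) hdeg
  have h1 : ∀ j ∈ range (P.X.card + 1), C (∏ j' ∈ J, ((j' : ℝ) - j)) * P.F Δ j =
      ∑ u ∈ (univ : Finset (Fin n)).powerset.filter (fun u => (P.X ∩ u).card = j), (-1 : ℝ[X]) ^ u.card *
        ∏ w ∈ Δᶜ.disjSum J, (c w - C (∑ i ∈ u, a w i)) := by
    intro j _
    unfold F
    rw [Finset.mul_sum]
    refine Finset.sum_congr rfl fun u hu => ?_
    have hj := (Finset.mem_filter.1 hu).2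
    rw [Finset.prod_disjSum]
    have e1 : ∏ x ∈ J, (c (Sum.inr x) - C (∑ i ∈ u, a (Sum.inr x) i)) = C (∏ j' ∈ J, ((j' : ℝ) - j)) := by
      rw [map_prod]
      refine Finset.prod_congr rfl fun j' _ => ?_
      have e2 : ∑ i ∈ u, a (Sum.inr j') i = (j : ℝ) := by
        show ∑ i ∈ u, (if i ∈ P.X then (1 : ℝ) else 0) = j
        rw [Finset.sum_ite_mem, Finset.sum_const, nsmul_eq_mul, mul_one, Finset.inter_comm, hj]
      rw [e2, C_sub]
    rw [e1]
    show C (∏ j' ∈ J, ((j' : ℝ) - j)) * ((-1 : ℝ[X]) ^ u.card * ∏ g ∈ Δᶜ, (1 - C (P.mu g) * Polynomial.X - C (∑ i ∈ u, P.b g i))) =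
      (-1 : ℝ[X]) ^ u.card * ((∏ g ∈ Δᶜ, (1 - C (P.mu g) * Polynomial.X - C (∑ i ∈ u, P.b g i))) * C (∏ j' ∈ J, ((j' : ℝ) - j)))
    ring
  rw [Finset.sum_congr rfl h1]
  refine Finset.sum_fiberwise_of_maps_to (fun u _ => ?_) _
  rw [Finset.mem_range]
  exact Nat.lt_succ_of_le (Finset.card_le_card Finset.inter_subset_left)

theorem F_zero {Δ : Finset ι} {k : ℕ} (hk : Δ.card < k)
    (hcov : ∀ u : Finset (Fin n), u.Nonempty → k ≤ (univ.filter fun g => P.sm g u = 1).card) :
    (P.F Δ 0).eval 0 = 1 := by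
  unfold F
  rw [Polynomial.eval_finsetSum, Finset.sum_eq_single ∅]
  · rw [Finset.card_empty, pow_zero, one_mul]
    unfold G
    rw [Polynomial.eval_prod]
    refine Finset.prod_eq_one fun g _ => ?_
    simp
  · intro u _ hu
    obtain ⟨g, hg, hgΔ⟩ : ∃ g ∈ (univ.filter fun g => P.sm g u = 1), g ∉ Δ := by
      by_contra hcon
      push Not at hcon
      have h1 := Finset.card_le_card (show (univ.filter fun g => P.sm g u = 1) ⊆ Δ from hcon)
      have h2 := hcov u (Finset.nonempty_iff_ne_empty.2 hu)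
      omega
    have h1 := (Finset.mem_filter.1 hg).2
    rw [Polynomial.eval_mul]
    unfold G
    rw [Polynomial.eval_prod, Finset.prod_eq_zero (Finset.mem_compl.2 hgΔ), mul_zero]
    unfold sm at h1
    rw [h1]
    simp
  · intro h
    exfalso
    apply h
    rw [Finset.mem_filter]
    exact ⟨Finset.mem_powerset.2 (Finset.empty_subset _), by rw [Finset.inter_empty, Finset.card_empty]⟩

end Dat

end Pool.Agent.H58BD
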