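import Mathlib
import Pool.Agent.Helper58.BD.Col

/-!
MP_1bf996_co (almost k-covers of the cube), bounded degree: the bound for large `X` and the numerical conditions.
-/

set_option autoImplicit false

open Finset Polynomial

namespace Pool.Agent.H58BD

theorem sum_Icc_sym (f : ℤ → ℕ) (T : ℕ) :
    ∑ τ ∈ Finset.Icc (-(T : ℤ)) T, f τ = f 0 + ∑ t ∈ Finset.Icc 1 T, (f (t : ℤ) + f (-(t : ℤ))) := by
  induction T with
  | zero => simp
  | succ T ih =>
    have h1 : Finset.Icc (-((T + 1 : ℕ) : ℤ)) ((T + 1 : ℕ) : ℤ) =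
        insert (-((T + 1 : ℕ) : ℤ)) (insert ((T + 1 : ℕ) : ℤ) (Finset.Icc (-(T : ℤ)) T)) := by
      ext x
      simp only [Finset.mem_Icc, Finset.mem_insert]
      push_cast
      omega
    have h2 : ((T + 1 : ℕ) : ℤ) ∉ Finset.Icc (-(T : ℤ)) T := by
      rw [Finset.mem_Icc]
      push_cast
      omega
    have h3 : (-((T + 1 : ℕ) : ℤ)) ∉ insert ((T + 1 : ℕ) : ℤ) (Finset.Icc (-(T : ℤ)) T) := by
      rw [Finset.mem_insert, Finset.mem_Icc]
      push_cast
      omega
    rw [h1, Finset.sum_insert h3, Finset.sum_insert h2, ih, Finset.sum_Icc_succ_top (by omega)]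
    ring

/-- the orders of the zeros of the column `j` -/
def Om (κ κ' m : ℕ) (ρ : ℕ → ℕ → ℕ) (j : ℕ) (τ : ℤ) : ℕ :=
  if τ = 0 then (if j = 0 then 0 else if j = m then κ' else κ)
  else if 0 < τ then ρ (m - j) τ.natAbs else ρ j τ.natAbs

theorem sum_Om (κ κ' m T : ℕ) (ρ : ℕ → ℕ → ℕ) (j : ℕ) : ∑ τ ∈ Finset.Icc (-(T : ℤ)) T, Om κ κ' m ρ j τ =
    (if j = 0 then 0 else if j = m then κ' else κ) + ∑ t ∈ Finset.Icc 1 T, ρ (m - j) t +
      ∑ t ∈ Finset.Icc 1 T, ρ j t := by
  rw [sum_Icc_sym, add_assoc, ← Finset.sum_add_distrib]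
  congr 1
  refine Finset.sum_congr rfl fun t ht => ?_
  rw [Finset.mem_Icc] at ht
  unfold Om
  have h1 : ¬ ((t : ℤ) = 0) := by omega
  have h2 : (0 : ℤ) < t := by omega
  have h3 : ¬ (-(t : ℤ) = 0) := by omega
  have h4 : ¬ ((0 : ℤ) < -(t : ℤ)) := by omega
  rw [if_neg h1, if_pos h2, if_neg h3, if_neg h4, Int.natAbs_neg, Int.natAbs_natCast]

variable {d n : ℕ} {ι : Type} [Fintype ι] [DecidableEq ι] (P : Dat d (Fin n) ι)

/-- The lower bound for a large set `X`. The members in `Δ` are dropped. -/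
theorem core {k a E T κ q : ℕ} (Δ : Finset ι) (hΔ : Disjoint Δ P.Sc) (hΔd : Δ ⊆ P.Sd) (hΔk : Δ.card < k)
    (hκ : κ + 2 * d ≤ k ∨ Δ.card = 0 ∧ κ ≤ k) (hκ1 : 1 ≤ κ) (hE : 1 ≤ E) (ha : P.Sd.card ≤ a) (ha1 : 1 ≤ a)
    (hcov : ∀ u : Finset (Fin n), u.Nonempty → k ≤ (univ.filter fun g => P.sm g u = 1).card)
    (ρ : ℕ → ℕ → ℕ) (ρB : ℕ → ℕ)
    (hρ : ∀ r t, 1 ≤ t → ρ r t ≤ Dat.ord k d a r t) (hle : ∀ r t, ρ r t ≤ ρB t)
    (hint : ∀ r t, E ≤ r → ρ r t = ρB t) (hq : q ≤ ∑ t ∈ Finset.Icc 1 T, ρB t)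
    (hnum : ∀ e, 1 ≤ e → e < E → q + 2 * e + 1 ≤ κ + ∑ t ∈ Finset.Icc 1 T, ρB t + ∑ t ∈ Finset.Icc 1 T, ρ e t)
    (hm : T + 2 * a + 2 ≤ P.X.card) (hm2 : 2 * E ≤ P.X.card) :
    n + q + Δ.card ≤ Fintype.card ι := by
  classical
  by_contra hcon
  push Not at hcon
  set m := P.X.card with hmdef
  have hroom : ∀ u : Finset (Fin n), (P.X \ u).card = m - (P.X ∩ u).card := by
    intro u
    have := P.card_split u
    omega
  have h0 := peel m E q T (Om κ (min κ (k - Δ.card)) m ρ) (fun τ => if τ = 0 then κ else ρB τ.natAbs) (P.F Δ)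
    (fun J => P.F_degree hcon J) ?_ ?_ ?_ (by simpa using hκ1) ?_ ?_
  · rw [P.F_zero hΔk hcov] at h0
    exact one_ne_zero h0
  · -- divisibility
    intro j hj τ hτ
    rw [Finset.mem_Icc] at hτ
    refine P.F_dvd fun u hu => ?_
    unfold Om
    by_cases h0 : τ = 0
    · rw [if_pos h0, h0]
      by_cases hj0 : j = 0
      · rw [if_pos hj0, pow_zero]
        exact one_dvd _
      · rw [if_neg hj0]
        have hne : u.Nonempty := by
          have h1 : (P.X ∩ u).card ≤ u.card := Finset.card_le_card Finset.inter_subset_right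
          exact Finset.card_pos.1 (by omega)
        by_cases hjm : j = m
        · rw [if_pos hjm]
          exact (pow_dvd_pow _ (min_le_right _ _)).trans (P.G_dvd_zero hΔ hcov hne)
        · rw [if_neg hjm]
          rcases hκ with hκ | ⟨hκ, hκ2⟩
          · refine (pow_dvd_pow _ (by omega)).trans (P.G_dvd_swap hΔ hΔd hcov (u := u) (by omega) ?_ (by omega))
            rw [hroom u]
            omega
          · refine (pow_dvd_pow _ ?_).trans (P.G_dvd_zero hΔ hcov hne)
            rw [hκ]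
            omega
    · rw [if_neg h0]
      by_cases h1 : 0 < τ
      · rw [if_pos h1]
        have h2 : τ = ((τ.natAbs : ℕ) : ℤ) := by omega
        have h3 := P.G_dvd_pos hΔ hΔd ha hcov u (t := τ.natAbs) (by omega) (by omega)
        rw [← h2, hroom u, hu] at h3
        exact (pow_dvd_pow _ (hρ _ _ (by omega))).trans h3
      · rw [if_neg h1]
        have h2 : τ = -((τ.natAbs : ℕ) : ℤ) := by omega
        have h3 := P.G_dvd_neg hΔ hΔd ha ha1 hcov u (t := τ.natAbs) (by omega) (by omega)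
        rw [← h2, hu] at h3
        exact (pow_dvd_pow _ (hρ _ _ (by omega))).trans h3
  · intro j _ τ
    unfold Om
    by_cases h0 : τ = 0
    · simp only [h0, if_true]
      split_ifs
      · omega
      · exact min_le_left _ _
      · exact le_rfl
    · rw [if_neg h0]
      simp only [h0, if_false]
      split_ifs
      · exact hle _ _
      · exact hle _ _
  · intro j hj1 hj2 τ
    unfold Om
    by_cases h0 : τ = 0
    · simp only [h0, if_true]
      rw [if_neg (by omega), if_neg (by omega)]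
    · rw [if_neg h0]
      simp only [h0, if_false]
      split_ifs
      · exact hint _ _ (by omega)
      · exact hint _ _ hj1
  · rw [sum_Om]
    have h1 : ∑ t ∈ Finset.Icc 1 T, ρ (m - 0) t = ∑ t ∈ Finset.Icc 1 T, ρB t :=
      Finset.sum_congr rfl fun t _ => hint _ _ (by omega)
    rw [h1, if_pos rfl]
    omega
  · intro j hj1 hj2 hj3
    rw [sum_Om, if_neg (by omega)]
    have hmin : 1 ≤ min κ (k - Δ.card) := by omega
    rcases hj3 with h | h
    · have h1 : ∑ t ∈ Finset.Icc 1 T, ρ (m - j) t = ∑ t ∈ Finset.Icc 1 T, ρB t :=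
        Finset.sum_congr rfl fun t _ => hint _ _ (by omega)
      have h2 := hnum j hj1 h
      have h3 : min j (m - j) = j := by omega
      rw [h1, h3, if_neg (by omega)]
      omega
    · have h1 : ∑ t ∈ Finset.Icc 1 T, ρ j t = ∑ t ∈ Finset.Icc 1 T, ρB t :=
        Finset.sum_congr rfl fun t _ => hint _ _ (by omega)
      have h3 : min j (m - j) = m - j := by omega
      rw [h1, h3]
      by_cases hjm : j = m
      · rw [if_pos hjm]
        omega
      · rw [if_neg hjm]
        have h2 := hnum (m - j) (by omega) (by omega)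
        omega

/-- the sum of the bounds `k - d t`, `t ≥ 3` -/
theorem sum_shift (k d : ℕ) : ∑ t ∈ Finset.Icc 3 k, (k - d * t) ≤ ∑ t ∈ Finset.Icc 1 k, (k - d * (t + 2)) := by
  have h1 : ∑ t ∈ Finset.Icc 3 k, (k - d * t) = ∑ t ∈ (Finset.Icc 3 k).image (fun t => t - 2), (k - d * (t + 2)) := by
    rw [Finset.sum_image]
    · refine Finset.sum_congr rfl fun t ht => ?_
      rw [Finset.mem_Icc] at ht
      congr 2
      omega
    · intro s hs t ht hst
      have h1 := Finset.mem_Icc.1 (Finset.mem_coe.1 hs)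
      have h2 := Finset.mem_Icc.1 (Finset.mem_coe.1 ht)
      have h3 : s - 2 = t - 2 := hst
      omega
  rw [h1]
  refine Finset.sum_le_sum_of_subset fun t ht => ?_
  obtain ⟨s, hs, rfl⟩ := Finset.mem_image.1 ht
  rw [Finset.mem_Icc] at hs ⊢
  omega

/-- many terms which are at least two -/
theorem sum_ge_two {f : ℕ → ℕ} {r K : ℕ} (hr : r ≤ K) (h : ∀ t, 1 ≤ t → t ≤ r → 2 ≤ f t) :
    2 * r ≤ ∑ t ∈ Finset.Icc 1 K, f t := by
  calc 2 * r = ∑ t ∈ Finset.Icc 1 r, 2 := by
        rw [Finset.sum_const, Nat.card_Icc, smul_eq_mul]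
        omega
    _ ≤ ∑ t ∈ Finset.Icc 1 r, f t := Finset.sum_le_sum fun t ht => by
        rw [Finset.mem_Icc] at ht
        exact h t ht.1 ht.2
    _ ≤ ∑ t ∈ Finset.Icc 1 K, f t := Finset.sum_le_sum_of_subset (Finset.Icc_subset_Icc_right hr)

/-- the numerical condition of the first bound -/
theorem num_one {k d κ : ℕ} (hk : 3 ≤ k) (hd : 1 ≤ d) (hκ : 3 ≤ κ) {e : ℕ} (he : e ≤ (k - 1) / d - 2) :
    2 * e + 1 ≤ κ + ∑ t ∈ Finset.Icc 1 k, (if t + 1 ≤ e then k - d * (t + 2) else 0) := by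
  rcases Nat.eq_zero_or_pos e with rfl | he0
  · omega
  have h1 : (e + 2) * d ≤ k - 1 := by
    refine (Nat.le_div_iff_mul_le (by omega)).1 (by omega)
  have h3 : (k - 1) / d ≤ k - 1 := Nat.div_le_self _ _
  have h2 := sum_ge_two (f := fun t => if t + 1 ≤ e then k - d * (t + 2) else 0) (r := e - 1) (K := k) (by omega)
    (fun t ht1 ht2 => by
      rw [if_pos (by omega)]
      have h4 : d * (t + 2) + d ≤ (e + 2) * d := by
        have : t + 2 + 1 ≤ e + 2 := by omega
        nlinarith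
      omega)
  omega

theorem div_zero_of_lt {k d t : ℕ} (hk : 1 ≤ k) (hd : 1 ≤ d) (ht : (k - 1) / d < t) : k - d * t = 0 := by
  by_contra hcon
  have h1 : t * d ≤ k - 1 := by
    have : d * t < k := by omega
    nlinarith [Nat.sub_add_cancel hk]
  have h2 := (Nat.le_div_iff_mul_le (show 0 < d by omega)).2 h1
  omega

/-- first bound -/
theorem bound_one {k a κ : ℕ} (Δ : Finset ι) (hΔ : Disjoint Δ P.Sc) (hΔd : Δ ⊆ P.Sd) (hΔk : Δ.card < k)
    (hκ : κ + 2 * d ≤ k ∨ Δ.card = 0 ∧ κ ≤ k) (hκ3 : 3 ≤ κ) (hd : 1 ≤ d) (ha : P.Sd.card ≤ a)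
    (ha1 : 1 ≤ a) (hcov : ∀ u : Finset (Fin n), u.Nonempty → k ≤ (univ.filter fun g => P.sm g u = 1).card)
    (hm : 2 * k + 2 * a + 2 ≤ P.X.card) : n + ∑ t ∈ Finset.Icc 3 k, (k - d * t) + Δ.card ≤ Fintype.card ι := by
  have hdiv : (k - 1) / d ≤ k - 1 := Nat.div_le_self _ _
  have hk : 3 ≤ k := by omega
  refine core P (k := k) (a := a) (E := (k - 1) / d - 2 + 1) (T := k) (κ := κ)
    (q := ∑ t ∈ Finset.Icc 3 k, (k - d * t)) Δ hΔ hΔd hΔk hκ (by omega) (by omega) ha ha1 hcov
    (fun r t => if t + 1 ≤ r then k - d * (t + 2) else 0) (fun t => k - d * (t + 2)) ?_ ?_ ?_ (sum_shift k d) ?_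
    (by omega) (by omega)
  · intro r t ht
    unfold Dat.ord
    have h1 : k - d * (t + 2) ≤ k - d * t := Nat.sub_le_sub_left (Nat.mul_le_mul_left d (by omega)) k
    split_ifs <;> omega
  · intro r t
    split_ifs <;> omega
  · intro r t hr
    split_ifs with h
    · rfl
    · exact (div_zero_of_lt (by omega) hd (by omega)).symm
  · intro e _ he
    have h1 := num_one (κ := κ) hk hd hκ3 (show e ≤ (k - 1) / d - 2 by omega)
    have h2 := sum_shift k d
    omega

theorem num_two {k d a κ : ℕ} (hk : 3 ≤ k) (hd : 1 ≤ d) (hκ3 : 3 ≤ κ)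
    (hcond : 2 * a + 1 ≤ κ + ∑ t ∈ Finset.Icc 1 k, (k - d * (t + 2))) {e : ℕ} (he : e < a + (k - 1) / d) :
    2 * e + 1 ≤ κ + ∑ t ∈ Finset.Icc 1 k, Dat.ord k d a e t := by
  have hdiv : (k - 1) / d ≤ k - 1 := Nat.div_le_self _ _
  -- monotonicity of the weaker sum
  have hweak : ∀ e, e ≤ a → 2 * e + 1 ≤ κ + ∑ t ∈ Finset.Icc 1 k, (if t + 1 ≤ e then k - d * (t + 2) else 0) := by
    intro e he
    by_cases h : e ≤ (k - 1) / d - 2
    · exact num_one hk hd hκ3 h
    · have h1 : ∑ t ∈ Finset.Icc 1 k, (if t + 1 ≤ e then k - d * (t + 2) else 0) =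
          ∑ t ∈ Finset.Icc 1 k, (k - d * (t + 2)) := by
        refine Finset.sum_congr rfl fun t ht => ?_
        rw [Finset.mem_Icc] at ht
        split_ifs with h2
        · rfl
        · exact (div_zero_of_lt (by omega) hd (by omega)).symm
      rw [h1]
      omega
  by_cases hea : e ≤ a
  · refine (hweak e hea).trans (Nat.add_le_add_left (Finset.sum_le_sum fun t ht => ?_) κ)
    rw [Finset.mem_Icc] at ht
    unfold Dat.ord
    have h1 : k - d * (t + 2) ≤ k - d * t := Nat.sub_le_sub_left (Nat.mul_le_mul_left d (by omega)) k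
    split_ifs <;> omega
  · obtain ⟨i, rfl⟩ : ∃ i, e = a + i := ⟨e - a, by omega⟩
    have hi : i + 1 ≤ (k - 1) / d := by omega
    have h1 : (i + 1) * d ≤ k - 1 := (Nat.le_div_iff_mul_le (by omega)).1 hi
    have h2 := hweak a le_rfl
    have h3 : ∑ t ∈ Finset.Icc 1 k, ((if t ≤ i then 2 else 0) + if t + 1 ≤ a then k - d * (t + 2) else 0) ≤
        ∑ t ∈ Finset.Icc 1 k, Dat.ord k d a (a + i) t := by
      refine Finset.sum_le_sum fun t ht => ?_
      rw [Finset.mem_Icc] at ht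
      unfold Dat.ord
      by_cases hti : t ≤ i
      · rw [if_pos hti, if_pos (show t + a ≤ a + i by omega)]
        have h4 : d * t + d ≤ (i + 1) * d := by
          have : t + 1 ≤ i + 1 := by omega
          nlinarith
        have h5 : d * (t + 2) = d * t + 2 * d := by ring
        split_ifs <;> omega
      · rw [if_neg hti, if_neg (show ¬ (t + a ≤ a + i) by omega)]
        split_ifs <;> omega
    rw [Finset.sum_add_distrib] at h3
    have h6 := sum_ge_two (f := fun t => if t ≤ i then 2 else 0) (r := i) (K := k) (by omega)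
      (fun t _ ht2 => by rw [if_pos ht2])
    omega

/-- second bound -/
theorem bound_two {k a : ℕ} (hk : 3 ≤ k) (hd : 1 ≤ d) (ha : P.Sd.card ≤ a) (ha1 : 1 ≤ a)
    (hcond : 2 * a + 1 ≤ k + ∑ t ∈ Finset.Icc 3 k, (k - d * t))
    (hcov : ∀ u : Finset (Fin n), u.Nonempty → k ≤ (univ.filter fun g => P.sm g u = 1).card)
    (hm : 2 * k + 2 * a + 2 ≤ P.X.card) : n + ∑ t ∈ Finset.Icc 1 k, (k - d * t) ≤ Fintype.card ι := by
  have hdiv : (k - 1) / d ≤ k - 1 := Nat.div_le_self _ _
  have h0 := core P (k := k) (a := a) (E := a + (k - 1) / d) (T := k) (κ := k)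
    (q := ∑ t ∈ Finset.Icc 1 k, (k - d * t)) ∅ (Finset.disjoint_empty_left _) (Finset.empty_subset _)
    (by rw [Finset.card_empty]; omega) (Or.inr ⟨Finset.card_empty, le_rfl⟩) (by omega)
    (Nat.le_add_right_of_le ha1) ha ha1 hcov (Dat.ord k d a) (fun t => k - d * t) (fun r t _ => le_rfl) ?_ ?_
    le_rfl ?_ (by omega) (by omega)
  · rwa [Finset.card_empty, add_zero] at h0
  · intro r t
    have h1 : k - d * (t + 2) ≤ k - d * t := Nat.sub_le_sub_left (Nat.mul_le_mul_left d (by omega)) k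
    unfold Dat.ord
    split_ifs <;> omega
  · intro r t hr
    unfold Dat.ord
    split_ifs with h h'
    · rfl
    · have h1 : k - d * t = 0 := div_zero_of_lt (by omega) hd (by omega)
      have h2 : k - d * (t + 2) ≤ k - d * t := Nat.sub_le_sub_left (Nat.mul_le_mul_left d (by omega)) k
      omega
    · exact (div_zero_of_lt (by omega) hd (by omega)).symm
  · intro e _ he
    have h1 := sum_shift k d
    have h2 := num_two (κ := k) hk hd hk (a := a) (by omega) he
    omega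

/-- the sum from `t = 3` is at least `k - 2` -/
theorem sum_three {k d : ℕ} (hd : 1 ≤ d) (h : 6 * d ≤ k + 1) : k ≤ ∑ t ∈ Finset.Icc 3 k, (k - d * t) + 2 := by
  have h1 : ∑ t ∈ ({3, 4, 5} : Finset ℕ), (k - d * t) ≤ ∑ t ∈ Finset.Icc 3 k, (k - d * t) := by
    refine Finset.sum_le_sum_of_subset fun t ht => ?_
    rw [Finset.mem_insert, Finset.mem_insert, Finset.mem_singleton] at ht
    rw [Finset.mem_Icc]
    omega
  have h2 : ∑ t ∈ ({3, 4, 5} : Finset ℕ), (k - d * t) = (k - d * 3) + ((k - d * 4) + (k - d * 5)) := by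
    rw [Finset.sum_insert (by decide), Finset.sum_insert (by decide), Finset.sum_singleton]
  omega

theorem sum_full {k d : ℕ} (hk : 3 ≤ k) : ∑ t ∈ Finset.Icc 1 k, (k - d * t) =
    (k - d) + (k - d * 2) + ∑ t ∈ Finset.Icc 3 k, (k - d * t) := by
  have h1 : Finset.Icc 1 k = insert 1 (insert 2 (Finset.Icc 3 k)) := by
    ext t
    simp only [Finset.mem_Icc, Finset.mem_insert]
    omega
  rw [h1, Finset.sum_insert (by simp), Finset.sum_insert (by simp), mul_one, add_assoc]

/-- the bound without condition on `Sd` -/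
theorem bound_three {k : ℕ} (hd : 1 ≤ d) (hkd : 6 * d ≤ k + 1) (hdis : Disjoint P.Sd P.Sc)
    (hcov : ∀ u : Finset (Fin n), u.Nonempty → k ≤ (univ.filter fun g => P.sm g u = 1).card)
    (hm : 2 * k + 2 * P.Sd.card + 4 ≤ P.X.card) :
    n + (k - 1) + ∑ t ∈ Finset.Icc 3 k, (k - d * t) ≤ Fintype.card ι := by
  have h3 := sum_three hd hkd
  have h4 := sum_full (k := k) (d := d) (by omega)
  by_cases ha : k - 1 ≤ P.Sd.card
  · obtain ⟨Δ, hΔd, hΔc⟩ := Finset.exists_subset_card_eq ha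
    have h1 := bound_one P (k := k) (a := P.Sd.card + 1) (κ := k - 2 * d) Δ
      (Finset.disjoint_of_subset_left hΔd hdis) hΔd (by omega) (Or.inl (by omega)) (by omega) hd (by omega) (by omega)
      hcov (by omega)
    omega
  · have h1 := bound_two P (k := k) (a := max P.Sd.card 1) (by omega) hd (le_max_left _ _) (le_max_right _ _)
      (by omega) hcov (by omega)
    omega

end Pool.Agent.H58BD
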