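import Mathlib
import Pool.Agent.Helper58.BD.Core
import Pool.Agent.Helper58.CV.Ramsey

/-!
MP_1bf996_co (almost k-covers of the cube), bounded degree: reduction to a set of coordinates on which the
members in `S` are constant or injective.
-/

set_option autoImplicit false

open Finset

namespace Pool.Agent.H58BD

/-- Many coordinates have degree at most `d` if the average degree is at most `d + 1 - ε`. -/
theorem few_large {α : Type} [DecidableEq α] (X : Finset α) (δ : α → ℕ) {d m : ℕ} {ε : ℝ} (hε : 0 < ε)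
    (h : (∑ i ∈ X, (δ i : ℝ)) ≤ (d + 1 - ε) * X.card) (hX : (d + 1) * m ≤ ε * X.card) :
    m ≤ (X.filter fun i => δ i ≤ d).card := by
  have h1 : ((d : ℝ) + 1) * (X.filter fun i => ¬ δ i ≤ d).card ≤ ∑ i ∈ X, (δ i : ℝ) := by
    calc ((d : ℝ) + 1) * (X.filter fun i => ¬ δ i ≤ d).card = ∑ i ∈ X.filter (fun i => ¬ δ i ≤ d), ((d : ℝ) + 1) := by
          rw [Finset.sum_const, nsmul_eq_mul, mul_comm]
      _ ≤ ∑ i ∈ X.filter (fun i => ¬ δ i ≤ d), (δ i : ℝ) := Finset.sum_le_sum fun i hi => by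
          have h2 := (Finset.mem_filter.1 hi).2
          have h3 : d + 1 ≤ δ i := by omega
          exact_mod_cast h3
      _ ≤ ∑ i ∈ X, (δ i : ℝ) := Finset.sum_le_sum_of_subset_of_nonneg (Finset.filter_subset _ _)
          fun _ _ _ => Nat.cast_nonneg _
  have h2 := Finset.card_filter_add_card_filter_not (s := X) (fun i => δ i ≤ d)
  have h3 : ((X.filter fun i => δ i ≤ d).card : ℝ) + (X.filter fun i => ¬ δ i ≤ d).card = X.card := by
    exact_mod_cast h2
  have hd : (0 : ℝ) < d + 1 := by positivity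
  have h4 : ((d : ℝ) + 1) * m ≤ (d + 1) * (X.filter fun i => δ i ≤ d).card := by
    nlinarith
  exact_mod_cast le_of_mul_le_mul_left h4 hd

/-- The bounds for the coordinates of degree at most `d`. -/
theorem bounded (k d : ℕ) (hk : 3 ≤ k) (hd : 1 ≤ d) (A M : ℕ) : ∃ n₀ : ℕ, ∀ {n : ℕ} {ι : Type} [Fintype ι]
    [DecidableEq ι] (b : ι → Fin n → ℝ),
    (∀ u : Finset (Fin n), u.Nonempty → k ≤ (univ.filter fun g => ∑ v ∈ u, b g v = 1).card) →
    ∀ (X : Finset (Fin n)) (S : Finset ι), n₀ ≤ X.card → S.card ≤ A →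
      (∀ i ∈ X, (univ.filter fun g => g ∉ S ∧ b g i ≠ 0).card ≤ d) →
      (6 * d ≤ k + 1 → n + (k - 1) + ∑ t ∈ Finset.Icc 3 k, (k - d * t) ≤ Fintype.card ι) ∧
      (2 * (S.filter fun g => M < (X.image (b g)).card).card + 1 ≤ k + ∑ t ∈ Finset.Icc 3 k, (k - d * t) →
        n + ∑ t ∈ Finset.Icc 1 k, (k - d * t) ≤ Fintype.card ι) := by
  classical
  set m : ℕ := 2 * k + 2 * A + M + 5 with hm
  obtain ⟨M₀, hM₀, hram⟩ := Pool.Agent.H58CV.ramsey m A
  refine ⟨M₀, fun {n ι} _ _ b hcov X S hX hS hdeg => ?_⟩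
  obtain ⟨J, hJX, hJm, hJ⟩ := hram S b X hS hX
  set Sc := S.filter fun g => ∃ c, ∀ i ∈ J, b g i = c with hSc
  have hlam : ∀ g, ∃ c : ℝ, g ∈ Sc → ∀ i ∈ J, b g i = c := by
    intro g
    by_cases hg : g ∈ Sc
    · obtain ⟨c, hc⟩ := (Finset.mem_filter.1 hg).2
      exact ⟨c, fun _ => hc⟩
    · exact ⟨0, fun h => absurd h hg⟩
  choose lam hlam using hlam
  set Sd := S.filter fun g => ¬ ∃ c, ∀ i ∈ J, b g i = c with hSd
  let P : Dat d (Fin n) ι :=
    { b := b
      X := J
      Sc := Sc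
      Sd := Sd
      lam := lam
      hc := fun s hs => hlam s hs
      hinj := fun s hs => by
        obtain ⟨h1, h2⟩ := Finset.mem_filter.1 hs
        exact (hJ s h1).resolve_left h2
      hd := fun i hi => by
        refine (Finset.card_le_card fun g hg => ?_).trans (hdeg i (hJX hi))
        rw [Finset.mem_filter] at hg ⊢
        refine ⟨Finset.mem_univ _, fun hgS => ?_, hg.2.2⟩
        by_cases h : ∃ c, ∀ i ∈ J, b g i = c
        · exact hg.2.1.1 (Finset.mem_filter.2 ⟨hgS, h⟩)
        · exact hg.2.1.2 (Finset.mem_filter.2 ⟨hgS, h⟩) }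
  have hSdA : Sd.card ≤ A := (Finset.card_le_card (Finset.filter_subset _ _)).trans hS
  refine ⟨fun hkd => bound_three P hd hkd ?_ hcov (show 2 * k + 2 * Sd.card + 4 ≤ J.card by omega),
    fun hcond => ?_⟩
  · show Disjoint Sd Sc
    rw [Finset.disjoint_left]
    intro g hg hg'
    exact (Finset.mem_filter.1 hg).2 (Finset.mem_filter.1 hg').2
  have hSdM : Sd.card ≤ (S.filter fun g => M < (X.image (b g)).card).card := by
    refine Finset.card_le_card fun g hg => ?_
    obtain ⟨h1, h2⟩ := Finset.mem_filter.1 hg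
    refine Finset.mem_filter.2 ⟨h1, ?_⟩
    have h3 : Set.InjOn (b g) J := (hJ g h1).resolve_left h2
    have h4 : (J.image (b g)).card = J.card := Finset.card_image_of_injOn h3
    have h5 : (J.image (b g)).card ≤ (X.image (b g)).card := Finset.card_le_card (Finset.image_subset_image hJX)
    omega
  have hAM : (S.filter fun g => M < (X.image (b g)).card).card ≤ A :=
    (Finset.card_le_card (Finset.filter_subset _ _)).trans hS
  set a := (S.filter fun g => M < (X.image (b g)).card).card with ha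
  by_cases ha0 : a = 0
  · exact bound_two P (a := 1) hk hd (show Sd.card ≤ 1 by omega) le_rfl (by omega) hcov
      (show 2 * k + 2 * 1 + 2 ≤ J.card by omega)
  · exact bound_two P (a := a) hk hd hSdM (by omega) hcond hcov
      (show 2 * k + 2 * a + 2 ≤ J.card by omega)

end Pool.Agent.H58BD
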